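import Pool.Agent.Q287.ISD.Ex

set_option autoImplicit false

/-!
# The variant with the dominance in the same direction as the hypothesis fails as well

The order `≤_3^-` is `Q287.ISD.InvLe 3`, and `μ_{1:k}` is `Q287.ISD.meanMin`. The law of `X + Z` for
independent `X ∼ μ`, `Z ∼ ρ` is the convolution `μ.conv ρ`.
-/

namespace Pool.Agent.Results.MP_dbe012_pr.NoNoiseCreates

open MeasureTheory Q287.ISD

/-- **Theorem.** There are integrable random variables `X ∼ μ`, `Y ∼ ν` with
`μ^X_{1:k} = μ^Y_{1:k}` for `k = 1, 2` and `μ^X_{1:3} > μ^Y_{1:3}` such that `Y + Z ≤_3^- X + Z`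
(in particular `X + Z >_3^- Y + Z`) holds for no integrable `Z` independent of `X` and `Y`. -/
theorem result : ∃ μ ν : Measure ℝ, IsProbabilityMeasure μ ∧ IsProbabilityMeasure ν ∧
    Integrable id μ ∧ Integrable id ν ∧ meanMin μ 1 = meanMin ν 1 ∧ meanMin μ 2 = meanMin ν 2 ∧
    meanMin ν 3 < meanMin μ 3 ∧
    ∀ ρ : Measure ℝ, IsProbabilityMeasure ρ → Integrable id ρ →
      ¬ InvLe 3 (ν.conv ρ) (μ.conv ρ) := by
  refine ⟨lawA 48, lawB (-57) 138, inferInstance, inferInstance, integrable_lawA (by norm_num),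
    integrable_lawB _ _, ?_, ?_, ?_, fun ρ _ hρ =>
      example_core (by norm_num) (by norm_num) (by norm_num) (by norm_num) ρ hρ⟩
  · rw [meanMin_lawB_one (by norm_num), meanMin_lawA_one (by norm_num)]; norm_num
  · rw [meanMin_lawB_two (by norm_num), meanMin_lawA_two (by norm_num)]; norm_num
  · rw [meanMin_lawB_three (by norm_num), meanMin_lawA_three (by norm_num)]; norm_num

end Pool.Agent.Results.MP_dbe012_pr.NoNoiseCreates
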