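import Pool.Agent.Q287.ISD.Ex

set_option autoImplicit false

/-!
# Third degree inverse stochastic dominance cannot always be created by independent noise

The order `≤_3^-` is `Q287.ISD.InvLe 3`, and `μ_{1:k}` is `Q287.ISD.meanMin`. The law of `X + Z` for
independent `X ∼ μ`, `Z ∼ ρ` is the convolution `μ.conv ρ`.
-/

namespace Pool.Agent.Results.MP_dbe012_pr.NoNoiseReverses

open MeasureTheory Q287.ISD

/-- **Theorem.** There are integrable random variables `X ∼ μ`, `Y ∼ ν` with
`μ^X_{1:k} = μ^Y_{1:k}` for `k = 1, 2` and `μ^X_{1:3} > μ^Y_{1:3}` such that `X + Z ≤_3^- Y + Z`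
(in particular `X + Z <_3^- Y + Z`) holds for no integrable `Z` independent of `X` and `Y`. -/
theorem result : ∃ μ ν : Measure ℝ, IsProbabilityMeasure μ ∧ IsProbabilityMeasure ν ∧
    Integrable id μ ∧ Integrable id ν ∧ meanMin μ 1 = meanMin ν 1 ∧ meanMin μ 2 = meanMin ν 2 ∧
    meanMin ν 3 < meanMin μ 3 ∧
    ∀ ρ : Measure ℝ, IsProbabilityMeasure ρ → Integrable id ρ →
      ¬ InvLe 3 (μ.conv ρ) (ν.conv ρ) := by
  refine ⟨lawB (-35) 46, lawA 0, inferInstance, inferInstance, integrable_lawB _ _,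
    integrable_lawA le_rfl, ?_, ?_, ?_, fun ρ _ hρ =>
      example_core le_rfl (by norm_num) (by norm_num) (by norm_num) ρ hρ⟩
  · rw [meanMin_lawB_one (by norm_num), meanMin_lawA_one le_rfl]; norm_num
  · rw [meanMin_lawB_two (by norm_num), meanMin_lawA_two le_rfl]; norm_num
  · rw [meanMin_lawB_three (by norm_num), meanMin_lawA_three le_rfl]; norm_num

end Pool.Agent.Results.MP_dbe012_pr.NoNoiseReverses
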